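import Pool.Agent.Helper42.RD.Goals2
import Pool.Agent.Helper46.RS.NFI
import Pool.Agent.Helper99.RS.QEX

/-!
# Project RD (MP_fc6b1e_nt), packet RE-NFI: primes of `K₁` with trivial decomposition group over `K`
above which there is a prime of `M₁` with nontrivial decomposition group over `K₁`
-/

set_option autoImplicit false

namespace Pool.Agent.Helper96.RD

open NumberField Module IsDedekindDomain Pool.Agent.Helper51.RP
open Pool.Agent.Helper38.RS (pz)
open Pool.Agent.Helper99.RS (pz_mono pz_union pz_finite finite_bad exists_int exists_move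
  norm_ne_zero pz_eq summable_norm)
open Pool.Agent.Helper46.RS (tm tm_nonneg fin_le pz_univ)

/-- outside of a finite set the primes of prime norm have trivial decomposition group -/
theorem free_of_prime {K K₁ : Type} [Field K] [NumberField K] [Field K₁] [NumberField K₁]
    [Algebra K K₁] [IsGalois K K₁] :
    ∃ R : Set (HeightOneSpectrum (𝓞 K₁)), R.Finite ∧ ∀ v : HeightOneSpectrum (𝓞 K₁), v ∉ R →
      (Ideal.absNorm v.asIdeal).Prime → FreeP K v := by
  choose θ hθ using fun g : {g : K₁ ≃ₐ[K] K₁ // g ≠ 1} => exists_move g.1 g.2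
  have hfinG : Finite (K₁ ≃ₐ[K] K₁) := inferInstance
  have hR2 : (⋃ g : {g : K₁ ≃ₐ[K] K₁ // g ≠ 1},
      {w : HeightOneSpectrum (𝓞 K₁) |
        w.valuation K₁ (g.1 (θ g : K₁) - (θ g : K₁)) ≠ 1}).Finite :=
    Set.finite_iUnion fun g => finite_bad (hθ g)
  refine ⟨_, hR2, fun v hn4 hn2 => ?_⟩
  rw [Set.mem_iUnion, not_exists] at hn4
  intro g hg
  by_contra hg1
  have h5 := hn4 ⟨g, hg1⟩
  rw [Set.mem_setOf_eq, not_not] at h5
  obtain ⟨n, hn⟩ := exists_int v hn2 (θ ⟨g, hg1⟩)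
  have h6 : v.valuation K₁ ((θ ⟨g, hg1⟩ : K₁) - (n : K₁)) < 1 := by
    have h7 : ((θ ⟨g, hg1⟩ : K₁) - (n : K₁)) =
        algebraMap (𝓞 K₁) K₁ (θ ⟨g, hg1⟩ - (n : 𝓞 K₁)) := by
      rw [map_sub, map_intCast]
    rw [h7, HeightOneSpectrum.valuation_lt_one_iff_mem]
    exact hn
  have h8 : v.valuation K₁ (g ((θ ⟨g, hg1⟩ : K₁) - (n : K₁))) < 1 := by
    rw [hg]
    exact h6
  have h9 : g ((θ ⟨g, hg1⟩ : 𝓞 K₁) : K₁) - ((θ ⟨g, hg1⟩ : 𝓞 K₁) : K₁) =
      g ((θ ⟨g, hg1⟩ : K₁) - (n : K₁)) - ((θ ⟨g, hg1⟩ : K₁) - (n : K₁)) := by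
    rw [map_sub, map_intCast]
    ring
  have h10 : v.valuation K₁ (g ((θ ⟨g, hg1⟩ : 𝓞 K₁) : K₁) - ((θ ⟨g, hg1⟩ : 𝓞 K₁) : K₁)) < 1 := by
    rw [h9]
    exact Valuation.map_sub_lt _ h8 h6
  exact absurd h5 h10.ne

/-- Packet RE-NFI. -/
theorem e_nfi (h1 : Pool.Agent.Helper38.RS.S_PSM) (h2 : Pool.Agent.Helper38.RS.S_DG1) :
    Pool.Agent.Helper42.RD.E_NFI := by
  classical
  intro K K₁ M₁ _ _ _ _ _ _ _ _ _ _ hrank Z hZ
  by_contra hcon
  push Not at hcon
  obtain ⟨C₁, hC₁⟩ := h1 K₁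
  obtain ⟨C₂, hC₂⟩ := h2 K₁
  obtain ⟨C₃, hC₃⟩ := h1 M₁
  obtain ⟨R₀, hR₀, hfree⟩ := free_of_prime (K := K) (K₁ := K₁)
  have hR := hR₀.union hZ
  set D : Set (HeightOneSpectrum (𝓞 K₁)) := {v | ¬ (Ideal.absNorm v.asIdeal).Prime} with hD
  set G : Set (HeightOneSpectrum (𝓞 K₁)) := (D ∪ (R₀ ∪ Z))ᶜ with hG
  have hGfree : ∀ v ∈ G, ∀ w : HeightOneSpectrum (𝓞 M₁), w.asIdeal.LiesOver v.asIdeal →
      Pool.Agent.Helper38.RS.FreeP K₁ w := by
    intro v hv w hw
    rw [hG, Set.mem_compl_iff, Set.mem_union, Set.mem_union, not_or, not_or, hD,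
      Set.mem_setOf_eq, not_not] at hv
    exact hcon v hv.2.2 (hfree v hv.2.1 hv.1) w hw.over.symm
  set m := finrank K₁ M₁ with hm
  have hm2 : (2 : ℝ) ≤ m := by exact_mod_cast hrank
  have key : ∀ s : ℝ, 1 < s → s ≤ 2 →
      Real.log (1 / (s - 1)) ≤ 2 * (|C₁| + |C₂| + |C₃| + (hR.toFinset.card : ℝ)) := by
    intro s hs hs2
    have e1 := hC₁ s hs hs2
    have e2 := hC₂ s hs hs2
    have e3 := hC₃ s hs hs2
    have hsM : Summable fun v : HeightOneSpectrum (𝓞 M₁) => tm s v := summable_norm s hs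
    rw [pz_univ] at e3
    set TM := ∑' w : HeightOneSpectrum (𝓞 M₁), tm s w with hTM
    have hTM0 : 0 ≤ TM := tsum_nonneg fun w => tm_nonneg s w
    have hle : pz G s ≤ TM / m := by
      rw [pz_eq]
      refine Real.tsum_le_of_sum_le (fun v => Set.indicator_nonneg (fun v _ => by positivity) v)
        fun F => ?_
      have h3 := fin_le s hsM (F.filter (· ∈ G)) (fun r hr w hw =>
        hGfree r (Finset.mem_filter.1 hr).2 w hw)
      have h4 : ∑ v ∈ F, G.indicator (fun v : HeightOneSpectrum (𝓞 K₁) ↦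
          (Ideal.absNorm v.asIdeal : ℝ) ^ (-s)) v = ∑ v ∈ F.filter (· ∈ G), tm s v := by
        rw [Finset.sum_filter]
        refine Finset.sum_congr rfl fun v _ => ?_
        by_cases hv : v ∈ G
        · rw [Set.indicator_of_mem hv, if_pos hv]
          rfl
        · rw [Set.indicator_of_notMem hv, if_neg hv]
      rw [h4, le_div_iff₀ (by linarith), mul_comm]
      exact h3
    have hcov : (Set.univ : Set (HeightOneSpectrum (𝓞 K₁))) ⊆ G ∪ (D ∪ (R₀ ∪ Z)) := by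
      intro v _
      rw [hG]
      by_cases hv : v ∈ D ∪ (R₀ ∪ Z)
      · exact Or.inr hv
      · exact Or.inl hv
    have e4 := pz_mono hcov s hs
    have e5 := pz_union G (D ∪ (R₀ ∪ Z)) s hs
    have e6 := pz_union D (R₀ ∪ Z) s hs
    have e7 := pz_finite hR s hs
    have a1 := le_abs_self C₁
    have a2 := le_abs_self C₂
    have a3 := le_abs_self C₃
    have hhalf : TM / m ≤ TM / 2 := div_le_div_of_nonneg_left hTM0 (by norm_num) hm2
    rw [abs_le] at e1 e3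
    have b3 := abs_nonneg C₃
    have b1 := abs_nonneg C₁
    linarith [e1.1, e3.2]
  set C : ℝ := |C₁| + |C₂| + |C₃| + (hR.toFinset.card : ℝ) with hC
  have hC0 : 0 ≤ C := by positivity
  have hpos : 0 < Real.exp (-(2 * C + 1)) := Real.exp_pos _
  have hle : Real.exp (-(2 * C + 1)) ≤ 1 := by
    rw [Real.exp_le_one_iff]
    linarith
  have h12 := key (1 + Real.exp (-(2 * C + 1))) (by linarith) (by linarith)
  rw [add_sub_cancel_left, one_div (Real.exp _), ← Real.exp_neg, Real.log_exp, neg_neg] at h12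
  linarith

end Pool.Agent.Helper96.RD
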